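import Pool.Agent.Helper96.Un.DORB

set_option autoImplicit false

namespace Pool.Agent.Helper19.Un

open scoped ComplexConjugate

theorem dlat_fin (R : ℝ) : {z : ℂ | z ∈ Eis ∧ ‖z‖ ≤ R}.Finite := by
  have hfin : ((fun p : ℤ × ℤ => (p.1 : ℂ) + p.2 * om) ''
      (Set.Icc (-⌈2 * R⌉) ⌈2 * R⌉ ×ˢ Set.Icc (-⌈2 * R⌉) ⌈2 * R⌉)).Finite :=
    ((Set.finite_Icc _ _).prod (Set.finite_Icc _ _)).image _
  refine hfin.subset ?_
  rintro z ⟨⟨a, b, rfl⟩, hz⟩
  refine ⟨(a, b), ?_, rfl⟩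
  have h3 := dorb_r3
  have hs : 0 ≤ Real.sqrt 3 := Real.sqrt_nonneg 3
  have hs1 : 1 ≤ Real.sqrt 3 := by
    rw [Real.one_le_sqrt]
    norm_num
  have hre : ((a : ℂ) + b * om).re = a - b / 2 := by
    simp only [om, Complex.add_re, Complex.mul_re, Complex.intCast_re, Complex.intCast_im]
    ring
  have him : ((a : ℂ) + b * om).im = b * Real.sqrt 3 / 2 := by
    simp only [om, Complex.add_im, Complex.mul_im, Complex.intCast_re, Complex.intCast_im]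
    ring
  have e1 : |(a : ℝ) - b / 2| ≤ R := by
    rw [← hre]
    exact (Complex.abs_re_le_norm _).trans hz
  have e2 : |(b : ℝ) * Real.sqrt 3 / 2| ≤ R := by
    rw [← him]
    exact (Complex.abs_im_le_norm _).trans hz
  have hb : |(b : ℝ)| ≤ 2 * R := by
    have e3 : |(b : ℝ) * Real.sqrt 3 / 2| = |(b : ℝ)| * Real.sqrt 3 / 2 := by
      rw [abs_div, abs_mul, abs_of_nonneg hs]
      norm_num
    rw [e3] at e2
    nlinarith [abs_nonneg (b : ℝ)]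
  have ha : |(a : ℝ)| ≤ 2 * R := by
    have e4 : (a : ℝ) = (a - b / 2) + b / 2 := by ring
    rw [e4]
    refine (abs_add_le _ _).trans ?_
    rw [abs_div]
    have : |(2 : ℝ)| = 2 := by norm_num
    rw [this]
    linarith
  have key : ∀ n : ℤ, |(n : ℝ)| ≤ 2 * R → n ∈ Set.Icc (-⌈2 * R⌉) ⌈2 * R⌉ := by
    intro n hn
    rw [abs_le] at hn
    constructor
    · have h1 : (-⌈2 * R⌉ : ℝ) ≤ n := by
        have := Int.le_ceil (2 * R)
        linarith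
      exact_mod_cast h1
    · have h1 : (n : ℝ) ≤ ⌈2 * R⌉ := hn.2.trans (Int.le_ceil _)
      exact_mod_cast h1
  exact ⟨key a ha, key b hb⟩

theorem dlat_th_norm : ‖th‖ = Real.sqrt 3 := by
  have h : ‖th‖ ^ 2 = 3 := by
    rw [← Complex.normSq_eq_norm_sq, Complex.normSq_apply]
    simp only [th]
    rw [dorb_r3]
    norm_num
  rw [← Real.sqrt_sq (norm_nonneg th), h]

theorem st_DLAT : ST_DLAT := by
  have hth := dorb_th_ne
  have hs1 : 1 ≤ Real.sqrt 3 := by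
    rw [Real.one_le_sqrt]
    norm_num
  have hs2 : 1 ≤ Real.sqrt 2 := by
    rw [Real.one_le_sqrt]
    norm_num
  have hs2' : (Real.sqrt 2 : ℂ) ≠ 0 := by
    have : Real.sqrt 2 ≠ 0 := by linarith
    exact_mod_cast this
  refine ⟨⟨th, hth, ⟨1, dorb_one, by simp⟩, D4L.zero_mem, Eis.zero_mem⟩, ⟨1, one_pos, ?_⟩, ?_, ?_⟩
  · intro x hx h0
    exact dorb_norm hx.2.2 h0
  · intro R
    have hF := dlat_fin R
    have hfin : ((fun q : ((ℂ × ℂ) × (ℂ × ℂ)) =>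
        ((th * q.1.1, !₂[q.1.2, (Real.sqrt 2 : ℂ) * q.2.1], q.2.2) : V 2)) ''
        (({z : ℂ | z ∈ Eis ∧ ‖z‖ ≤ R} ×ˢ {z : ℂ | z ∈ Eis ∧ ‖z‖ ≤ R}) ×ˢ
          ({z : ℂ | z ∈ Eis ∧ ‖z‖ ≤ R} ×ˢ {z : ℂ | z ∈ Eis ∧ ‖z‖ ≤ R}))).Finite :=
      ((hF.prod hF).prod (hF.prod hF)).image _
    refine hfin.subset ?_
    rintro x ⟨⟨⟨a, ha, h1⟩, ⟨X, hX, Y, hY, k, hk, h2, h3, h4⟩, h5⟩, hR⟩
    have n1 : ‖x.1‖ ≤ R := (norm_fst_le x).trans hR
    have n2 : ‖x.2‖ ≤ R := (norm_snd_le x).trans hR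
    have n3 : ‖x.2.1‖ ≤ R := (norm_fst_le x.2).trans n2
    have n4 : ‖x.2.2‖ ≤ R := (norm_snd_le x.2).trans n2
    have n5 : ‖x.2.1 0‖ ≤ R := (PiLp.norm_apply_le x.2.1 0).trans n3
    have n6 : ‖x.2.1 1‖ ≤ R := (PiLp.norm_apply_le x.2.1 1).trans n3
    rw [h1, norm_mul, dlat_th_norm] at n1
    rw [h3] at n5
    rw [h4, norm_mul, Complex.norm_real, Real.norm_of_nonneg (Real.sqrt_nonneg 2)] at n6
    refine ⟨((a, X), (Y, x.2.2)), ⟨⟨⟨ha, ?_⟩, ⟨hX, n5⟩⟩, ⟨⟨hY, ?_⟩, ⟨h5, n4⟩⟩⟩, ?_⟩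
    · nlinarith [norm_nonneg a]
    · nlinarith [norm_nonneg Y]
    · refine Prod.ext h1.symm (Prod.ext ?_ rfl)
      change !₂[X, (Real.sqrt 2 : ℂ) * Y] = x.2.1
      ext i
      fin_cases i
      · exact h3.symm
      · exact h4.symm
  · rw [eq_top_iff]
    rintro x -
    have v1 : ((th, 0, 0) : V 2) ∈ MD4 := ⟨⟨1, dorb_one, by simp⟩, D4L.zero_mem, Eis.zero_mem⟩
    have hthE : th ∈ Eis := ⟨1, 2, by
      apply Complex.ext
      · simp [th, om]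
        norm_num
      · simp [th, om]
        ring⟩
    have v2 : ((0, !₂[th, 0], 0) : V 2) ∈ MD4 :=
      ⟨⟨0, Eis.zero_mem, by simp⟩, ⟨th, hthE, 0, Eis.zero_mem, 1, dorb_one, by simp, by simp,
        by simp⟩, Eis.zero_mem⟩
    have v3 : ((0, !₂[0, (Real.sqrt 2 : ℂ) * th], 0) : V 2) ∈ MD4 :=
      ⟨⟨0, Eis.zero_mem, by simp⟩, ⟨0, Eis.zero_mem, th, hthE, -1, Eis.neg_mem dorb_one, by simp,
        by simp, by simp⟩, Eis.zero_mem⟩
    have v4 : ((0, 0, 1) : V 2) ∈ MD4 := ⟨⟨0, Eis.zero_mem, by simp⟩, D4L.zero_mem, dorb_one⟩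
    have hx : x = (x.1 / th) • ((th, 0, 0) : V 2) + ((x.2.1 0) / th) • ((0, !₂[th, 0], 0) : V 2) +
        ((x.2.1 1) / ((Real.sqrt 2 : ℂ) * th)) • ((0, !₂[0, (Real.sqrt 2 : ℂ) * th], 0) : V 2) +
        x.2.2 • ((0, 0, 1) : V 2) := by
      refine Prod.ext ?_ (Prod.ext ?_ ?_)
      · simp only [Prod.fst_add, Prod.smul_fst, smul_eq_mul, mul_zero, add_zero]
        field_simp
      · simp only [Prod.fst_add, Prod.snd_add, Prod.smul_fst, Prod.smul_snd, smul_zero, zero_add,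
          add_zero]
        ext i
        fin_cases i
        · simp
          field_simp
        · simp
          field_simp
      · simp only [Prod.snd_add, Prod.smul_snd, smul_eq_mul, mul_zero, zero_add, mul_one]
    rw [hx]
    refine Submodule.add_mem _ (Submodule.add_mem _ (Submodule.add_mem _ ?_ ?_) ?_) ?_
    · exact Submodule.smul_mem _ _ (Submodule.subset_span v1)
    · exact Submodule.smul_mem _ _ (Submodule.subset_span v2)
    · exact Submodule.smul_mem _ _ (Submodule.subset_span v3)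
    · exact Submodule.smul_mem _ _ (Submodule.subset_span v4)

end Pool.Agent.Helper19.Un
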