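import Pool.Agent.Helper19.Un.Alg
import Pool.Agent.Helper56.Un.E8Stmts

set_option autoImplicit false

namespace Pool.Agent.Helper19.Un

open scoped ComplexConjugate

theorem eorb_r3 : Real.sqrt 3 * Real.sqrt 3 = 3 := Real.mul_self_sqrt (by norm_num)

theorem eorb_om_sq : om * om = -1 - om := by
  have h := eorb_r3
  apply Complex.ext
  · simp only [om, Complex.mul_re, Complex.sub_re, Complex.neg_re, Complex.one_re]
    linear_combination (-1 / 4 : ℝ) * h
  · simp only [om, Complex.mul_im, Complex.sub_im, Complex.neg_im, Complex.one_im]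
    ring

theorem eorb_om_conj : conj om = -1 - om := by
  apply Complex.ext
  · simp only [om, Complex.conj_re, Complex.sub_re, Complex.neg_re, Complex.one_re]
    norm_num
  · simp only [om, Complex.conj_im, Complex.sub_im, Complex.neg_im, Complex.one_im]
    norm_num

theorem eorb_th_conj : conj th = -th := by
  apply Complex.ext
  · simp [th]
  · simp [th]

theorem eorb_th_ne : th ≠ 0 := by
  intro h
  have h1 := congrArg Complex.im h
  have h2 : th.im = Real.sqrt 3 := rfl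
  rw [h2, Complex.zero_im] at h1
  have h3 := eorb_r3
  rw [h1] at h3
  norm_num at h3

theorem eorb_mul {x y : ℂ} (hx : x ∈ Eis) (hy : y ∈ Eis) : x * y ∈ Eis := by
  obtain ⟨a, b, rfl⟩ := hx
  obtain ⟨c, d, rfl⟩ := hy
  refine ⟨a * c - b * d, a * d + b * c - b * d, ?_⟩
  push_cast
  linear_combination ((b : ℂ) * d) * eorb_om_sq

theorem eorb_conj {x : ℂ} (hx : x ∈ Eis) : conj x ∈ Eis := by
  obtain ⟨a, b, rfl⟩ := hx
  refine ⟨a - b, -b, ?_⟩
  simp only [map_add, map_mul, map_intCast, eorb_om_conj]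
  push_cast
  ring

theorem eorb_one : (1 : ℂ) ∈ Eis := ⟨1, 0, by simp⟩

theorem eorb_norm {x : ℂ} (hx : x ∈ Eis) (h0 : x ≠ 0) : 1 ≤ ‖x‖ := by
  obtain ⟨a, b, rfl⟩ := hx
  have h1 : Complex.normSq ((a : ℂ) + b * om) = ((a ^ 2 - a * b + b ^ 2 : ℤ) : ℝ) := by
    have h := eorb_r3
    rw [Complex.normSq_apply]
    simp only [om, Complex.add_re, Complex.add_im, Complex.mul_re, Complex.mul_im,
      Complex.intCast_re, Complex.intCast_im]
    push_cast
    linear_combination ((b : ℝ) ^ 2 / 4) * h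
  have h2 : 0 < Complex.normSq ((a : ℂ) + b * om) := Complex.normSq_pos.2 h0
  rw [h1] at h2
  have h3 : (1 : ℤ) ≤ a ^ 2 - a * b + b ^ 2 := by
    have : (0 : ℤ) < a ^ 2 - a * b + b ^ 2 := by exact_mod_cast h2
    omega
  have h4 : (1 : ℝ) ≤ Complex.normSq ((a : ℂ) + b * om) := by
    rw [h1]
    exact_mod_cast h3
  rw [Complex.normSq_eq_norm_sq] at h4
  nlinarith [norm_nonneg ((a : ℂ) + b * om)]

theorem eorb_L {s : ℂ} (hs : s ∈ Eis) {ζ : E 4} (hζ : ζ ∈ E8L) : s • ζ ∈ E8L := by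
  obtain ⟨h0, ⟨k, hk, h1⟩, l, hl, h2⟩ := hζ
  refine ⟨fun i => ?_, ⟨s * k, eorb_mul hs hk, ?_⟩, s * l, eorb_mul hs hl, ?_⟩
  · rw [PiLp.smul_apply, smul_eq_mul]
    exact eorb_mul hs (h0 i)
  · simp only [PiLp.smul_apply, smul_eq_mul]
    linear_combination s * h1
  · simp only [PiLp.smul_apply, smul_eq_mul]
    linear_combination s * h2

theorem eorb_M {s : ℂ} (hs : s ∈ Eis) {x : V 4} (hx : x ∈ ME8) : s • x ∈ ME8 := by
  obtain ⟨⟨a, ha, h1⟩, h2, h3⟩ := hx
  refine ⟨⟨s * a, eorb_mul hs ha, ?_⟩, eorb_L hs h2, eorb_mul hs h3⟩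
  rw [Prod.smul_fst, smul_eq_mul, h1]
  ring

/-- multiplication by a unit -/
theorem eorb_unit {s : ℂ} (hs : s ∈ Eis) (hn : ‖s‖ = 1) :
    ∃ g ∈ Gam ME8, ∀ x, g x = s • x := by
  have hs0 : s ≠ 0 := by
    intro h
    rw [h, norm_zero] at hn
    norm_num at hn
  have hsc : s * conj s = 1 := by
    rw [Complex.mul_conj', hn]
    norm_num
  refine ⟨LinearEquiv.smulOfNeZero ℂ (V 4) s hs0, ⟨?_, ?_⟩, fun x => rfl⟩
  · intro x y
    change herm (s • x) (s • y) = herm x y
    rw [herm_smul_left, herm_smul_right, ← mul_assoc, hsc, one_mul]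
  · intro x
    change s • x ∈ ME8 ↔ x ∈ ME8
    constructor
    · intro h
      have h1 := eorb_M (eorb_conj hs) h
      rw [smul_smul, mul_comm, hsc, one_smul] at h1
      exact h1
    · exact eorb_M hs

/-- the involution exchanging the two isotropic lines -/
noncomputable def eorb_J : V 4 ≃ₗ[ℂ] V 4 where
  toFun x := (th * x.2.2, x.2.1, -(x.1 / th))
  map_add' x y := by
    refine Prod.ext ?_ (Prod.ext ?_ ?_)
    · simp only [Prod.fst_add, Prod.snd_add]; ring
    · simp only [Prod.fst_add, Prod.snd_add]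
    · simp only [Prod.fst_add, Prod.snd_add]; ring
  map_smul' c x := by
    refine Prod.ext ?_ (Prod.ext ?_ ?_)
    · simp only [Prod.smul_fst, Prod.smul_snd, smul_eq_mul, RingHom.id_apply]; ring
    · simp only [Prod.smul_fst, Prod.smul_snd, RingHom.id_apply]
    · simp only [Prod.smul_fst, Prod.smul_snd, smul_eq_mul, RingHom.id_apply]; ring
  invFun x := (-(th * x.2.2), x.2.1, x.1 / th)
  left_inv x := by
    have h := eorb_th_ne
    refine Prod.ext ?_ (Prod.ext ?_ ?_)
    · change -(th * -(x.1 / th)) = x.1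
      field_simp
    · rfl
    · change th * x.2.2 / th = x.2.2
      field_simp
  right_inv x := by
    have h := eorb_th_ne
    refine Prod.ext ?_ (Prod.ext ?_ ?_)
    · change th * (x.1 / th) = x.1
      field_simp
    · rfl
    · change -(-(th * x.2.2) / th) = x.2.2
      field_simp

theorem eorb_J_apply (x : V 4) : eorb_J x = (th * x.2.2, x.2.1, -(x.1 / th)) := rfl

theorem eorb_J_mem : eorb_J ∈ Gam ME8 := by
  have h := eorb_th_ne
  refine ⟨?_, ?_⟩
  · intro x y
    rw [eorb_J_apply, eorb_J_apply]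
    unfold herm
    simp only [map_neg, map_div₀, map_mul, eorb_th_conj]
    field_simp
    ring
  · intro x
    rw [eorb_J_apply]
    constructor
    · rintro ⟨⟨a, ha, h1⟩, h2, h3⟩
      have h1' : th * x.2.2 = th * a := h1
      have h3' : -(x.1 / th) ∈ Eis := h3
      refine ⟨⟨x.1 / th, ?_, ?_⟩, h2, ?_⟩
      · have := Eis.neg_mem h3'
        rwa [neg_neg] at this
      · field_simp
      · rw [mul_left_cancel₀ h h1']
        exact ha
    · rintro ⟨⟨a, ha, h1⟩, h2, h3⟩
      refine ⟨⟨x.2.2, h3, rfl⟩, h2, ?_⟩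
      change -(x.1 / th) ∈ Eis
      rw [h1, mul_div_cancel_left₀ _ h]
      exact Eis.neg_mem ha

theorem eorb_thw {w : V 4} (hw : w ∈ Orb ME8) : th • w ∈ ME8 := by
  obtain ⟨g, hg, rfl⟩ := hw
  rw [← map_smul, hg.2]
  refine ⟨⟨1, eorb_one, ?_⟩, ?_, ?_⟩
  · change th * 1 = th * 1
    rfl
  · change th • (0 : E 4) ∈ E8L
    rw [smul_zero]
    exact E8L.zero_mem
  · change th * 0 ∈ Eis
    rw [mul_zero]
    exact Eis.zero_mem

theorem eorb_w {w : V 4} (hw : w ∈ Orb ME8) (h0 : w.2.2 = 0) : ∃ s ∈ Eis, w = s • w0 := by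
  have h1 := herm_Orb hw
  have h2 := herm_self_re w
  rw [h1, h0] at h2
  simp only [map_zero, mul_zero, Complex.zero_re, zero_add] at h2
  have h3 : w.2.1 = 0 := by
    have : ‖w.2.1‖ = 0 := by
      have := h2.symm
      rwa [sq_eq_zero_iff] at this
    exact norm_eq_zero.1 this
  obtain ⟨⟨a, ha, h4⟩, _, _⟩ := eorb_thw hw
  have h5 : th * w.1 = th * a := h4
  have h6 := mul_left_cancel₀ eorb_th_ne h5
  refine ⟨a, ha, ?_⟩
  refine Prod.ext ?_ (Prod.ext ?_ ?_)
  · change w.1 = a * 1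
    rw [h6, mul_one]
  · change w.2.1 = a • (0 : E 4)
    rw [h3, smul_zero]
  · change w.2.2 = a * 0
    rw [h0, mul_zero]

theorem st_EORB (hC : ST_ECUSP) : ST_EORB := by
  refine ⟨?_, ?_, ?_⟩
  · intro w hw
    refine ⟨eorb_thw hw, herm_Orb hw, fun h0 => ?_⟩
    obtain ⟨s, hs, hws⟩ := eorb_w hw h0
    obtain ⟨g, hg, hgw⟩ := hw
    have hw0 : (w0 : V 4) ≠ 0 := by
      intro h
      have := congrArg Prod.fst h
      change (1 : ℂ) = 0 at this
      exact one_ne_zero this
    have hs0 : s ≠ 0 := by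
      rintro rfl
      rw [zero_smul, hgw] at hws
      exact hw0 ((LinearEquiv.map_eq_zero_iff g).1 hws)
    have hginv : g⁻¹ (w0 : V 4) = s⁻¹ • w0 := by
      have h1 : g w0 = s • w0 := by rw [← hgw, hws]
      have h2 : g⁻¹ (g w0) = w0 := g.symm_apply_apply w0
      rw [h1, map_smul] at h2
      rw [← h2, smul_smul, inv_mul_cancel₀ hs0, one_smul]
      exact h2.symm ▸ rfl
    have hw' : g⁻¹ (w0 : V 4) ∈ Orb ME8 := ⟨g⁻¹, (Gam ME8).inv_mem hg, rfl⟩
    have h0' : (g⁻¹ (w0 : V 4)).2.2 = 0 := by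
      rw [hginv]
      change s⁻¹ * 0 = 0
      rw [mul_zero]
    obtain ⟨t, ht, hwt⟩ := eorb_w hw' h0'
    have hst : s⁻¹ = t := by
      rw [hginv] at hwt
      have := congrArg Prod.fst hwt
      change s⁻¹ * 1 = t * 1 at this
      rwa [mul_one, mul_one] at this
    refine ⟨s, hs, ?_, hws⟩
    have h1 := eorb_norm hs hs0
    have h2 := eorb_norm ht (by rw [← hst]; exact inv_ne_zero hs0)
    rw [← hst, norm_inv] at h2
    have h3 : 0 < ‖s‖ := norm_pos_iff.2 hs0
    have h4 : ‖s‖ ≤ 1 := by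
      rw [le_inv_comm₀ one_pos h3, inv_one] at h2
      exact h2
    exact le_antisymm h4 h1
  · intro a b hab s hs hn
    have hns : ‖-s‖ = 1 := by rw [norm_neg, hn]
    obtain ⟨u, hu, hux⟩ := eorb_unit (Eis.neg_mem hs) hns
    have hT := hC.2 a b hab
    refine ⟨(u * (T a b * eorb_J)) w0, ⟨_, (Gam ME8).mul_mem hu ((Gam ME8).mul_mem hT eorb_J_mem),
      rfl⟩, ?_⟩
    have h := eorb_th_ne
    change th • u (T a b (eorb_J w0)) = s • ((a, b, 1) : V 4)
    have hJ : eorb_J w0 = ((0, 0, -(1 / th)) : V 4) := by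
      refine Prod.ext ?_ (Prod.ext ?_ ?_)
      · change th * 0 = 0
        rw [mul_zero]
      · rfl
      · rfl
    rw [hux, hJ, T_apply]
    refine Prod.ext ?_ (Prod.ext ?_ ?_)
    · change th * (-s * (0 - inner ℂ b (0 : E 4) + a * -(1 / th))) = s * a
      rw [inner_zero_right]
      field_simp
      ring
    · change th • (-s • ((0 : E 4) + (-(1 / th)) • b)) = s • b
      rw [zero_add, smul_smul, smul_smul]
      congr 1
      field_simp
    · change th * (-s * -(1 / th)) = s * 1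
      field_simp
  · intro s hs hn
    obtain ⟨u, hu, hux⟩ := eorb_unit hs hn
    exact ⟨u, hu, (hux w0).symm⟩

end Pool.Agent.Helper19.Un
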